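import Pool.Agent.H.MP_86e2e0_an.Defs

namespace Pool.Agent.H.MP_86e2e0_an

open Filter Topology

theorem null_set (U : Ultrafilter ℕ) (hU : (U : Filter ℕ) ≤ atTop) (c : ℕ → ℕ → ℝ)
    (h0 : ∀ k n, 0 ≤ c k n) (h1 : ∀ k N, ∑ n ∈ Finset.range N, c k n ≤ 1)
    (h2 : ∀ n, Tendsto (fun k => c k n) atTop (𝓝 0)) :
    ∃ L : Set ℕ, L.Infinite ∧ ∀ ε > 0, ∀ᶠ k in U, ∀ N,
      ∑ n ∈ Finset.range N, L.indicator (c k) n ≤ ε := by
  have hs : ∀ k, Summable (c k) := fun k => summable_of_sum_range_le (h0 k) (h1 k)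
  have hi : ∀ k (B : Set ℕ), Summable (B.indicator (c k)) := fun k B => (hs k).indicator B
  have hn : ∀ k (B : Set ℕ) n, 0 ≤ B.indicator (c k) n := fun k B n =>
    Set.indicator_nonneg (fun n _ => h0 k n) n
  obtain ⟨ν, hν⟩ : ∃ ν : ℕ → Set ℕ → ℝ, ∀ k B, ν k B = ∑' n, B.indicator (c k) n :=
    ⟨_, fun _ _ => rfl⟩
  have half : ∀ B : Set ℕ, B.Infinite → ∃ B' : Set ℕ, B'.Infinite ∧ B' ⊆ B ∧
      ∀ᶠ k in U, ν k B' ≤ ν k B / 2 := by
    intro B hB
    let f := hB.natEmbedding B
    have hinj : Function.Injective (fun n => (f n : ℕ)) := Subtype.val_injective.comp f.injective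
    have key : ∀ k, ν k (Set.range fun n => (f (2 * n) : ℕ)) +
        ν k (Set.range fun n => (f (2 * n + 1) : ℕ)) ≤ ν k B := by
      intro k
      rw [hν, hν, hν, ← (hi k _).tsum_add (hi k _)]
      refine ((hi k _).add (hi k _)).tsum_le_tsum (fun n => ?_) (hi k _)
      by_cases a : n ∈ Set.range fun n => (f (2 * n) : ℕ)
      · obtain ⟨i, rfl⟩ := id a
        have b : (f (2 * i) : ℕ) ∉ Set.range fun n => (f (2 * n + 1) : ℕ) := by
          rintro ⟨j, hj⟩
          have := hinj hj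
          omega
        rw [Set.indicator_of_mem a, Set.indicator_of_notMem b, Set.indicator_of_mem (f _).2]
        simp
      · rw [Set.indicator_of_notMem a, zero_add]
        exact Set.indicator_le_indicator_of_subset (by rintro _ ⟨j, rfl⟩; exact (f _).2)
          (h0 k) n
    rcases U.em (fun k => ν k (Set.range fun n => (f (2 * n) : ℕ)) ≤ ν k B / 2) with h | h
    · exact ⟨_, Set.infinite_range_of_injective (fun a b hab => by have := hinj hab; omega),
        by rintro _ ⟨j, rfl⟩; exact (f _).2, h⟩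
    · refine ⟨Set.range fun n => (f (2 * n + 1) : ℕ),
        Set.infinite_range_of_injective (fun a b hab => by have := hinj hab; omega),
        by rintro _ ⟨j, rfl⟩; exact (f _).2, h.mono fun k hk => ?_⟩
      have := key k
      push Not at hk
      linarith
  choose! nx n1 n2 n3 using half
  let B : ℕ → Set ℕ := fun i => nx^[i] Set.univ
  have hB : ∀ i, B (i + 1) = nx (B i) := fun i => Function.iterate_succ_apply' _ _ _
  have b1 : ∀ i, (B i).Infinite := by
    intro i; induction i with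
    | zero => exact Set.infinite_univ
    | succ i ih => rw [hB]; exact n1 _ ih
  have b2 : Antitone B := antitone_nat_of_succ_le fun i => by rw [hB]; exact n2 _ (b1 i)
  have b3 : ∀ i, ∀ᶠ k in U, ν k (B i) ≤ (1 / 2) ^ i := by
    intro i; induction i with
    | zero =>
      refine Eventually.of_forall fun k => ?_
      rw [hν]
      simpa [B] using Real.tsum_le_of_sum_range_le (h0 k) (h1 k)
    | succ i ih =>
      rw [hB]
      filter_upwards [ih, n3 _ (b1 i)] with k a b
      rw [pow_succ]; linarith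
  choose x x1 x2 using fun i => (b1 i).exists_gt i
  refine ⟨Set.range x, Set.infinite_of_forall_exists_gt fun i => ⟨x i, ⟨i, rfl⟩, x2 i⟩,
    fun ε hε => ?_⟩
  obtain ⟨i, hi'⟩ := exists_pow_lt_of_lt_one (half_pos hε) (show (1 / 2 : ℝ) < 1 by norm_num)
  have t1 : Tendsto (fun k => ∑ j ∈ Finset.range i, c k (x j)) atTop (𝓝 0) := by
    simpa using tendsto_finsetSum (Finset.range i) (fun j _ => h2 (x j))
  filter_upwards [b3 i, hU (t1.eventually (gt_mem_nhds (half_pos hε)))] with k a b N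
  have e1 : ∀ n, (Set.range x).indicator (c k) n ≤ (B i).indicator (c k) n +
      ∑ j ∈ Finset.range i, if n = x j then c k (x j) else 0 := by
    intro n
    have p1 : 0 ≤ ∑ j ∈ Finset.range i, if n = x j then c k (x j) else 0 :=
      Finset.sum_nonneg fun j _ => by split_ifs; exacts [h0 _ _, le_rfl]
    by_cases a : n ∈ Set.range x
    · obtain ⟨j, rfl⟩ := id a
      rw [Set.indicator_of_mem a]
      by_cases hj : j < i
      · have := Finset.single_le_sum (f := fun j' => if x j = x j' then c k (x j') else 0)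
          (fun j' _ => by split_ifs; exacts [h0 _ _, le_rfl]) (Finset.mem_range.2 hj)
        simp only [if_true] at this
        linarith [hn k (B i) (x j)]
      · rw [Set.indicator_of_mem (b2 (not_lt.1 hj) (x1 j))]
        linarith
    · rw [Set.indicator_of_notMem a]
      linarith [hn k (B i) n]
  have e2 : ∑ n ∈ Finset.range N, (B i).indicator (c k) n ≤ ν k (B i) := by
    rw [hν]; exact (hi k _).sum_le_tsum _ (fun n _ => hn k _ n)
  have e3 : ∑ n ∈ Finset.range N, ∑ j ∈ Finset.range i, (if n = x j then c k (x j) else 0) ≤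
      ∑ j ∈ Finset.range i, c k (x j) := by
    rw [Finset.sum_comm]
    refine Finset.sum_le_sum fun j _ => ?_
    rw [Finset.sum_ite_eq']
    split_ifs; exacts [le_rfl, h0 _ _]
  have e4 := Finset.sum_le_sum (fun n (_ : n ∈ Finset.range N) => e1 n)
  rw [Finset.sum_add_distrib] at e4
  have b' : ∑ j ∈ Finset.range i, c k (x j) < ε / 2 := b
  linarith

variable {A : Type} [NonUnitalCStarAlgebra A] [PartialOrder A] [StarOrderedRing A]

theorem smul_le_self {t : A} (h : 0 ≤ t) {r : ℝ} (hr : r ≤ 1) : r • t ≤ t := by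
  have := smul_nonneg (sub_nonneg.2 hr) h
  rw [sub_smul, one_smul] at this
  exact sub_nonneg.1 this

theorem sq_le {t : A} (h : 0 ≤ t) (h1 : ‖t‖ ≤ 1) : t * t ≤ t := by
  have e1 := CFC.sqrt_mul_sqrt_self t h
  have e2 : star (CFC.sqrt t) = CFC.sqrt t := (IsSelfAdjoint.of_nonneg (CFC.sqrt_nonneg t)).star_eq
  have := CStarAlgebra.star_left_conjugate_le_norm_smul (a := CFC.sqrt t) (b := t)
    (IsSelfAdjoint.of_nonneg h)
  rw [e2, e1] at this
  refine le_trans (le_of_eq ?_) (this.trans (smul_le_self h h1))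
  conv_lhs => rw [← e1]
  conv_rhs => arg 1; arg 2; rw [← e1]
  simp only [mul_assoc]

theorem cstar_le (c b : A) : star (c * b) * (c * b) ≤ (‖c‖ * ‖c‖) • (star b * b) := by
  have := CStarAlgebra.star_left_conjugate_le_norm_smul (a := b) (b := star c * c)
    (IsSelfAdjoint.star_mul_self c)
  rw [CStarRing.norm_star_mul_self] at this
  simpa only [star_mul, mul_assoc] using this

theorem fst_mul (x : DoubleCentralizer ℂ A) (a b : A) : x.fst (a * b) = x.fst a * b := by
  have h : ∀ c, c * (x.fst (a * b) - x.fst a * b) = 0 := fun c => by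
    rw [mul_sub, ← x.central, ← mul_assoc, ← mul_assoc, x.central, sub_self]
  have := h (star (x.fst (a * b) - x.fst a * b))
  rw [CStarRing.star_mul_self_eq_zero_iff] at this
  exact sub_eq_zero.1 this

structure Tr (τ : A →L[ℂ] ℂ) : Prop where
  pos : ∀ a, 0 ≤ (τ (star a * a)).re
  tr : ∀ a b, τ (a * b) = τ (b * a)
  bd : ∀ a, ‖τ a‖ ≤ ‖a‖

theorem Tr.mono {τ : A →L[ℂ] ℂ} (h : Tr τ) {a b : A} (hab : a ≤ b) : (τ a).re ≤ (τ b).re := by
  have h0 := sub_nonneg.2 hab
  have e1 := CFC.sqrt_mul_sqrt_self _ h0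
  have e2 := (IsSelfAdjoint.of_nonneg (CFC.sqrt_nonneg (b - a))).star_eq
  have := h.pos (CFC.sqrt (b - a))
  rw [e2, e1, map_sub, Complex.sub_re] at this
  linarith

noncomputable def NN (τ : A →L[ℂ] ℂ) (b : A) : ℝ := (τ (star b * b)).re

theorem NN_cont (τ : A →L[ℂ] ℂ) : Continuous (NN τ) := by unfold NN; fun_prop

theorem Tr.mul_le {τ : A →L[ℂ] ℂ} (h : Tr τ) (c b : A) : NN τ (c * b) ≤ ‖c‖ * ‖c‖ * NN τ b := by
  have := h.mono (cstar_le c b)
  rwa [ContinuousLinearMap.map_smul_of_tower, Complex.smul_re, smul_eq_mul] at this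

theorem Tr.star {τ : A →L[ℂ] ℂ} (h : Tr τ) (b : A) : NN τ (star b) = NN τ b := by
  unfold NN; rw [star_star, h.tr]

theorem Tr.mul_le' {τ : A →L[ℂ] ℂ} (h : Tr τ) (b : A) {a : A} (ha : ‖a‖ ≤ 1) :
    NN τ (b * a) ≤ NN τ b := by
  rw [← h.star, star_mul, ← h.star b]
  refine (h.mul_le _ _).trans ?_
  rw [norm_star]
  have := h.pos (Star.star b)
  have h2 : ‖a‖ * ‖a‖ ≤ 1 := mul_le_one₀ ha (norm_nonneg _) ha
  exact mul_le_of_le_one_left this h2

theorem Tr.add_le {τ : A →L[ℂ] ℂ} (h : Tr τ) (b c : A) : NN τ (b + c) ≤ 2 * NN τ b + 2 * NN τ c := by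
  have := h.pos (b - c)
  unfold NN
  simp only [star_add, star_sub, mul_add, add_mul, mul_sub, sub_mul, map_add, map_sub,
    Complex.add_re, Complex.sub_re] at this ⊢
  linarith

theorem Tr.fst_le {τ : A →L[ℂ] ℂ} (h : Tr τ) (y : DoubleCentralizer ℂ A) (b : A) :
    NN τ (y.fst b) ≤ ‖y‖ * ‖y‖ * NN τ b := by
  have hl := CStarAlgebra.increasingApproximateUnit A
  have := hl.neBot
  have t1 : Tendsto (fun e => NN τ (y.fst (e * b))) (CStarAlgebra.approximateUnit A)
      (𝓝 (NN τ (y.fst b))) :=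
    (((NN_cont τ).comp y.fst.continuous).tendsto b).comp (hl.tendsto_mul_right b)
  refine le_of_tendsto t1 (hl.eventually_norm.mono fun e he => ?_)
  rw [fst_mul]
  refine (h.mul_le _ _).trans (mul_le_mul_of_nonneg_right ?_ (h.pos b))
  have : ‖y.fst e‖ ≤ ‖y‖ := by
    refine (y.fst.le_opNorm e).trans ?_
    rw [DoubleCentralizer.norm_fst]
    exact mul_le_of_le_one_right (norm_nonneg _) he
  exact mul_self_le_mul_self (norm_nonneg _) this

noncomputable def II (U : Ultrafilter ℕ) (τ : ℕ → A →L[ℂ] ℂ) (h : ∀ k, Tr (τ k)) :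
    TwoSidedIdeal (DoubleCentralizer ℂ A) :=
  TwoSidedIdeal.mk' {x | ∀ ε > 0, ∀ᶠ k in U, ∀ a, ‖a‖ ≤ 1 → NN (τ k) (x.fst a) ≤ ε}
    (fun ε hε => Eventually.of_forall fun k a _ => by simp [NN, hε.le])
    (fun {x y} hx hy ε hε => by
      filter_upwards [hx (ε / 4) (by positivity), hy (ε / 4) (by positivity)] with k h1 h2 a ha
      have := (h k).add_le (x.fst a) (y.fst a)
      have := h1 a ha
      have := h2 a ha
      show NN (τ k) (x.fst a + y.fst a) ≤ ε
      linarith)
    (fun {x} hx ε hε => by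
      filter_upwards [hx ε hε] with k h1 a ha
      show NN (τ k) (-x.fst a) ≤ ε
      simpa [NN] using h1 a ha)
    (fun {x y} hy ε hε => by
      have p : 0 < ‖x‖ * ‖x‖ + 1 := by positivity
      filter_upwards [hy (ε / (‖x‖ * ‖x‖ + 1)) (by positivity)] with k h1 a ha
      show NN (τ k) (x.fst (y.fst a)) ≤ ε
      refine ((h k).fst_le x _).trans ?_
      have h2 := h1 a ha
      rw [le_div_iff₀ p] at h2
      have := (h k).pos (y.fst a)
      change 0 ≤ NN (τ k) (y.fst a) at this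
      nlinarith)
    (fun {x y} hx ε hε => by
      have p : 0 < ‖y‖ + 1 := by positivity
      filter_upwards [hx (ε / ((‖y‖ + 1) * (‖y‖ + 1))) (by positivity)] with k h1 a ha
      show NN (τ k) (x.fst (y.fst a)) ≤ ε
      have n1 : ‖(‖y‖ + 1)⁻¹ • y.fst a‖ ≤ 1 := by
        rw [norm_smul, Real.norm_of_nonneg (by positivity), inv_mul_le_iff₀ p]
        have := y.fst.le_opNorm a
        rw [DoubleCentralizer.norm_fst] at this
        nlinarith [norm_nonneg y]
      have h2 := h1 _ n1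
      rw [ContinuousLinearMap.map_smul_of_tower] at h2
      unfold NN at h2 ⊢
      rw [star_smul, smul_mul_smul_comm, ContinuousLinearMap.map_smul_of_tower, Complex.smul_re,
        star_trivial, smul_eq_mul, ← mul_inv, inv_mul_eq_div,
        div_le_div_iff_of_pos_right (by positivity)] at h2
      exact h2)

theorem mem_II {U : Ultrafilter ℕ} {τ : ℕ → A →L[ℂ] ℂ} {h : ∀ k, Tr (τ k)}
    {x : DoubleCentralizer ℂ A} :
    x ∈ II U τ h ↔ ∀ ε > 0, ∀ᶠ k in U, ∀ a, ‖a‖ ≤ 1 → NN (τ k) (x.fst a) ≤ ε :=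
  TwoSidedIdeal.mem_mk' _ _ _ _ _ _ _

theorem strict_lim (d s : ℕ → A) (d1 : ∀ n, ‖d n‖ ≤ 1) (d0 : ∀ n, 0 ≤ d n)
    (da : ∀ a, CauchySeq (fun n => d n * a)) (sa : ∀ n, IsSelfAdjoint (s n))
    (hs : ∀ N M, N ≤ M → 0 ≤ s M - s N ∧ s M - s N ≤ d M - d N) :
    ∃ S : DoubleCentralizer ℂ A, ∀ a, Tendsto (fun N => s N * a) atTop (𝓝 (S.fst a)) ∧
      Tendsto (fun N => a * s N) atTop (𝓝 (S.snd a)) := by
  have c1 : ∀ a, CauchySeq (fun n => s n * a) := by
    intro a
    rw [Metric.cauchySeq_iff']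
    intro ε hε
    obtain ⟨N, hN⟩ := Metric.cauchySeq_iff'.1 (da a) (ε * ε / (‖a‖ + 1)) (by positivity)
    refine ⟨N, fun M hM => ?_⟩
    obtain ⟨t0, t1⟩ := hs N M hM
    have t2 : ‖s M - s N‖ ≤ 1 := (CStarAlgebra.norm_le_norm_of_nonneg_of_le t0
      (t1.trans (sub_le_self _ (d0 N)))).trans (d1 M)
    have t3 : star ((s M - s N) * a) * ((s M - s N) * a) ≤ star a * (d M - d N) * a := by
      have := star_left_conjugate_le_conjugate ((sq_le t0 t2).trans t1) a
      rw [star_mul, (IsSelfAdjoint.of_nonneg t0).star_eq]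
      simpa only [mul_assoc] using this
    have t4 := CStarAlgebra.norm_le_norm_of_nonneg_of_le (star_mul_self_nonneg _) t3
    rw [CStarRing.norm_star_mul_self, mul_assoc] at t4
    have t5 := norm_mul_le (star a) ((d M - d N) * a)
    rw [norm_star] at t5
    have t6 := hN M hM
    rw [dist_eq_norm, ← sub_mul, lt_div_iff₀ (by positivity)] at t6
    rw [dist_eq_norm, ← sub_mul]
    have := norm_nonneg ((d M - d N) * a)
    exact lt_of_mul_self_lt_mul_self₀ hε.le (by nlinarith)
  choose l hl using fun a => cauchySeq_tendsto_of_complete (c1 a)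
  have hr : ∀ a, Tendsto (fun N => a * s N) atTop (𝓝 (star (l (star a)))) := fun a => by
    simpa [(sa _).star_eq] using (hl (star a)).star
  refine ⟨⟨⟨continuousLinearMapOfTendsto (fun N => ContinuousLinearMap.mul ℂ A (s N))
      (f := l) (tendsto_pi_nhds.2 hl),
    continuousLinearMapOfTendsto (fun N => (ContinuousLinearMap.mul ℂ A).flip (s N))
      (f := fun a => star (l (star a))) (tendsto_pi_nhds.2 hr)⟩, fun x y => ?_⟩,
    fun a => ⟨hl a, hr a⟩⟩
  have a1 := (hr x).mul_const y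
  have a2 := (hl y).const_mul x
  simp only [mul_assoc] at a1
  exact tendsto_nhds_unique a1 a2

theorem abstract (τ : ℕ → A →L[ℂ] ℂ) (h : ∀ k, Tr (τ k))
    (h0 : ∀ a, Tendsto (fun k => τ k a) atTop (𝓝 0))
    (h1 : ∀ k, ∃ a, ‖a‖ ≤ 1 ∧ 1 / 2 ≤ NN (τ k) a) :
    (¬ ∃ e : A, ∀ a, e * a = a ∧ a * e = a) ∧
    ∃ I : TwoSidedIdeal (DoubleCentralizer ℂ A), I ≠ ⊤ ∧ NonMeagre I := by
  have hU : (hyperfilter ℕ : Filter ℕ) ≤ atTop := Nat.hyperfilter_le_atTop
  have hre : ∀ a, Tendsto (fun k => (τ k a).re) atTop (𝓝 0) := fun a => by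
    simpa [Function.comp_def] using (Complex.continuous_re.tendsto 0).comp (h0 a)
  have i1 : ∀ a : A, (a : DoubleCentralizer ℂ A) ∈ II (hyperfilter ℕ) τ h := by
    intro b
    rw [mem_II]
    intro ε hε
    filter_upwards [hU ((hre (star b * b)).eventually (gt_mem_nhds hε))] with k hk a ha
    exact ((h k).mul_le' b ha).trans (le_of_lt hk)
  have i2 : ∀ x ∈ II (hyperfilter ℕ) τ h, ¬ ∀ a, x.fst a = a := by
    intro x hx hxa
    obtain ⟨k, hk⟩ := (mem_II.1 hx (1 / 4) (by norm_num)).exists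
    obtain ⟨a, a1, a2⟩ := h1 k
    have := hk a a1
    rw [hxa] at this
    linarith
  refine ⟨fun ⟨e, he⟩ => i2 _ (i1 e) fun a => (he a).1, II (hyperfilter ℕ) τ h,
    fun ht => i2 1 (by rw [ht]; trivial) fun _ => rfl, i1, ?_⟩
  rintro e ⟨g1, g2, g3, -⟩ m hm m0
  have em : Monotone e := by
    refine monotone_nat_of_le_succ fun n => ?_
    have s1 := (IsSelfAdjoint.of_nonneg (g1 (n + 1)).1).star_eq
    have s0 := IsSelfAdjoint.of_nonneg (g1 n).1
    have c1 : e n * e (n + 1) = e n := by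
      have := congrArg star (g3 n).1
      rwa [star_mul, s1, s0.star_eq] at this
    have := CStarAlgebra.star_left_conjugate_le_norm_smul (a := e (n + 1)) (b := e n) s0
    rw [s1, (g3 n).1, c1] at this
    have q := sq_le (g1 (n + 1)).1 (g1 (n + 1)).2
    have q0 : 0 ≤ e (n + 1) * e (n + 1) := by
      have := star_mul_self_nonneg (e (n + 1)); rwa [s1] at this
    exact this.trans ((smul_le_self q0 (g1 n).2).trans q)
  obtain ⟨d, hd⟩ : ∃ d : ℕ → A, ∀ n, d n = ez e (m n - 1) := ⟨_, fun _ => rfl⟩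
  have dz : d 0 = 0 := by simp [hd, ez, m0]
  have ds : ∀ n, d (n + 1) = e (m (n + 1) - 1) := by
    intro n
    have : m 0 < m (n + 1) := hm (by omega)
    rw [hd, ez, if_neg (by omega)]
    congr 1; omega
  have d0 : ∀ n, 0 ≤ d n ∧ ‖d n‖ ≤ 1 := by
    intro n
    cases n with
    | zero => simp [dz]
    | succ n => rw [ds]; exact g1 _
  have dm : ∀ n, 0 ≤ d (n + 1) - d n := by
    intro n
    rw [sub_nonneg]
    cases n with
    | zero => rw [dz]; exact (d0 _).1
    | succ n =>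
      rw [ds, ds]
      exact em (Nat.sub_le_sub_right (hm.monotone (by omega)) 1)
  have da : ∀ a, CauchySeq (fun n => d n * a) := by
    intro a
    rw [← cauchySeq_shift 1]
    simp only [ds]
    refine ((g2 a).1.comp (tendsto_atTop_mono (fun n => ?_) tendsto_id)).cauchySeq
    have := hm.id_le (n + 1)
    simp only [id] at this ⊢
    omega
  obtain ⟨L, L1, L2⟩ := null_set (hyperfilter ℕ) hU (fun k n => (τ k (d (n + 1) - d n)).re)
    (fun k n => by simpa using (h k).mono (dm n))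
    (fun k N => by
      rw [← Complex.re_sum, ← map_sum, Finset.sum_range_sub, dz, sub_zero]
      exact (Complex.re_le_norm _).trans (((h k).bd _).trans (d0 N).2))
    (fun n => hre _)
  have hps : ∀ N, ps e m L N = ∑ n ∈ Finset.range N, L.indicator (fun n => d (n + 1) - d n) n := by
    intro N; simp only [ps, hd]
  have hi0 : ∀ n, 0 ≤ L.indicator (fun n => d (n + 1) - d n) n ∧
      L.indicator (fun n => d (n + 1) - d n) n ≤ d (n + 1) - d n := by
    intro n
    by_cases a : n ∈ L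
    · rw [Set.indicator_of_mem a]; exact ⟨dm n, le_rfl⟩
    · rw [Set.indicator_of_notMem a]; exact ⟨le_rfl, dm n⟩
  have hs : ∀ N M, N ≤ M → 0 ≤ ps e m L M - ps e m L N ∧ ps e m L M - ps e m L N ≤ d M - d N := by
    intro N M hNM
    induction hNM with
    | refl => simp
    | @step M _ ih =>
      have : ps e m L (M + 1) = ps e m L M + L.indicator (fun n => d (n + 1) - d n) M := by
        rw [hps, hps, Finset.sum_range_succ]
      rw [this, add_sub_right_comm]
      refine ⟨add_nonneg ih.1 (hi0 M).1, (add_le_add ih.2 (hi0 M).2).trans (le_of_eq ?_)⟩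
      abel
  have p0 : ps e m L 0 = 0 := by simp [ps]
  have s0 : ∀ N, 0 ≤ ps e m L N ∧ ‖ps e m L N‖ ≤ 1 := by
    intro N
    have := hs 0 N (Nat.zero_le _)
    rw [p0, dz, sub_zero, sub_zero] at this
    exact ⟨this.1, (CStarAlgebra.norm_le_norm_of_nonneg_of_le this.1 this.2).trans (d0 N).2⟩
  obtain ⟨S, hS⟩ := strict_lim d (ps e m L) (fun n => (d0 n).2) (fun n => (d0 n).1) da
    (fun n => IsSelfAdjoint.of_nonneg (s0 n).1) hs
  refine ⟨L, L1, S, mem_II.2 fun ε hε => ?_, hS⟩
  filter_upwards [L2 ε hε] with k hk a ha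
  refine le_of_tendsto' (((NN_cont (τ k)).tendsto _).comp (hS a).1) fun N => ?_
  refine ((h k).mul_le' _ ha).trans ?_
  unfold NN
  rw [(IsSelfAdjoint.of_nonneg (s0 N).1).star_eq]
  refine ((h k).mono (sq_le (s0 N).1 (s0 N).2)).trans (le_trans (le_of_eq ?_) (hk N))
  rw [hps, map_sum, Complex.re_sum]
  refine Finset.sum_congr rfl fun n _ => ?_
  by_cases a : n ∈ L
  · simp only [Set.indicator_of_mem a]
  · simp [Set.indicator_of_notMem a]

end Pool.Agent.H.MP_86e2e0_an
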