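import Pool.Agent.H.MP_86e2e0_an.A

namespace Pool.Agent.H.MP_86e2e0_an

open Filter Topology
open scoped ComplexConjugate

def LL (l : ℕ) : ℕ := (l + 1) * 2 ^ (l + 2)

instance (l : ℕ) : NeZero (LL l) := ⟨by unfold LL; positivity⟩

def GG : AddSubgroup (∀ l, ZMod (LL l)) where
  carrier := {g | ∃ B, ∀ l, B ≤ l → g l = 0}
  add_mem' := by
    rintro a b ⟨B, h⟩ ⟨C, h'⟩
    exact ⟨max B C, fun l hl => by simp [h l (le_of_max_le_left hl), h' l (le_of_max_le_right hl)]⟩
  zero_mem' := ⟨0, fun _ _ => rfl⟩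
  neg_mem' := by
    rintro a ⟨B, h⟩
    exact ⟨B, fun l hl => by simp [h l hl]⟩

def Sup (n : ℕ) (g : GG) : Prop := ∀ l, n ≤ l → g.1 l = 0

theorem Sup.mono {n m : ℕ} {g : GG} (h : Sup n g) (hm : n ≤ m) : Sup m g :=
  fun l hl => h l (hm.trans hl)

theorem ex_sup (g : GG) : ∃ n, Sup n g := g.2

def sub (l i s : ℕ) : ℕ := if i ≤ l + 1 ∧ 1 ≤ s ∧ s ≤ l + 1 then s - 1 else i

def dn (g : GG) : ℕ → ℕ → ℕ → ℕ
  | 0, _, τ => τ
  | j + 1, l, τ => sub l (dn g j (l + 1) τ) (g.1 l).val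

theorem dn_succ (g : GG) (τ : ℕ) : ∀ j n, Sup (n + j) g → dn g (j + 1) n τ = dn g j n τ
  | 0, n, h => by simp [dn, h n le_rfl, sub]
  | j + 1, n, h => by
    have := dn_succ g τ j (n + 1) (h.mono (by omega))
    rw [dn, this, ← dn]

theorem dn_le (g : GG) (τ : ℕ) {j j' n : ℕ} (h : Sup (n + j) g) (hj : j ≤ j') :
    dn g j' n τ = dn g j n τ := by
  induction hj with
  | refl => rfl
  | step hle ih => rw [dn_succ g τ _ n (h.mono (Nat.add_le_add_left hle n)), ih]

abbrev Y : Type := ℕ × GG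

noncomputable def tp (y : Y) (n : ℕ) : ℕ := dn y.2 (ex_sup y.2).choose n y.1

theorem tp_eq (y : Y) {j n : ℕ} (h : Sup (n + j) y.2) : tp y n = dn y.2 j n y.1 := by
  have h2 : Sup (n + (ex_sup y.2).choose) y.2 := (ex_sup y.2).choose_spec.mono (by omega)
  unfold tp
  rw [← dn_le y.2 y.1 h2 (le_max_left _ j), dn_le y.2 y.1 h (le_max_right _ j)]

theorem tp_rec (y : Y) (n : ℕ) : tp y n = sub n (tp y (n + 1)) (y.2.1 n).val := by
  obtain ⟨B, hB⟩ := ex_sup y.2
  rw [tp_eq y (j := B + 1) (hB.mono (by omega)), tp_eq y (j := B) (hB.mono (by omega))]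
  rfl

theorem tp_top {y : Y} {n : ℕ} (h : Sup n y.2) : tp y n = y.1 := tp_eq y (j := 0) h

theorem tp_congr {y y' : Y} {n : ℕ} (h1 : y.1 = y'.1) (h : ∀ l, n ≤ l → y.2.1 l = y'.2.1 l) :
    tp y n = tp y' n := by
  obtain ⟨B, hB⟩ := ex_sup y.2
  obtain ⟨C, hC⟩ := ex_sup y'.2
  rw [tp_eq y (j := B + C) (hB.mono (by omega)), tp_eq y' (j := B + C) (hC.mono (by omega)), h1]
  generalize B + C = j
  induction j generalizing n with
  | zero => rfl
  | succ j ih => simp only [dn]; rw [ih (fun l hl => h l (by omega)), h n le_rfl]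

def Cyl (n : ℕ) (S : Set Y) : Prop :=
  (∀ y ∈ S, tp y n ≤ n) ∧
    ∀ y y' : Y, tp y n = tp y' n → (∀ l < n, y.2.1 l = y'.2.1 l) → y ∈ S → y' ∈ S

theorem tp_le_succ {y : Y} {n : ℕ} (h : tp y n ≤ n) : tp y (n + 1) ≤ n + 1 := by
  rw [tp_rec, sub] at h
  split_ifs at h <;> omega

theorem Cyl.mono {n m : ℕ} {S : Set Y} (h : Cyl n S) (hm : n ≤ m) : Cyl m S := by
  induction hm with
  | refl => exact h
  | step _ ih =>
    refine ⟨fun y hy => tp_le_succ (ih.1 y hy), fun y y' h1 h2 => ih.2 y y' ?_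
      (fun l hl => h2 l (by omega))⟩
    rw [tp_rec y, tp_rec y', h1, h2 _ (by omega)]

def sh (h : GG) : Y ≃ Y := (Equiv.refl ℕ).prodCongr (Equiv.subRight h)

theorem sh_apply (h : GG) (y : Y) : sh h y = (y.1, y.2 - h) := rfl

theorem tp_sh {n : ℕ} {h : GG} (hh : Sup n h) (y : Y) : tp (sh h y) n = tp y n :=
  tp_congr rfl fun l hl => by simp [sh_apply, hh l hl]

theorem Cyl.shift {n : ℕ} {S : Set Y} (hS : Cyl n S) {h : GG} (hh : Sup n h) :
    Cyl n (sh h ⁻¹' S) :=
  ⟨fun y hy => tp_sh hh y ▸ hS.1 _ hy, fun y y' h1 h2 => hS.2 _ _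
    (by rw [tp_sh hh, tp_sh hh, h1]) (fun l hl => by simp [sh_apply, h2 l hl])⟩

theorem Cyl.inter {n : ℕ} {S S' : Set Y} (h : Cyl n S) (h' : Cyl n S') : Cyl n (S ∩ S') :=
  ⟨fun y hy => h.1 y hy.1, fun y y' h1 h2 hy => ⟨h.2 y y' h1 h2 hy.1, h'.2 y y' h1 h2 hy.2⟩⟩

noncomputable abbrev L2 := lp (fun _ : Y => ℂ) 2
abbrev Op := L2 →L[ℂ] L2

open Classical in
noncomputable def dl (y : Y) : L2 := lp.single 2 y 1

open Classical in
lemma dl_apply (y x : Y) : dl y x = if x = y then 1 else 0 := by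
  simp [dl, lp.single_apply, Pi.single_apply]

lemma dl_norm (y : Y) : ‖dl y‖ = 1 := by
  classical
  unfold dl
  rw [lp.norm_single (by simp)]; simp

lemma inner_dl (y : Y) (f : L2) : inner ℂ (dl y) f = f y := by
  simp [dl, lp.inner_single_left]

lemma ext_en {a b : Op} (h : ∀ x y, a (dl x) y = b (dl x) y) : a = b := by
  classical
  refine lp.ext_continuousLinearMap (by simp) fun i => ?_
  ext1
  exact lp.ext (funext (h i))

lemma en_le (a : Op) (x y : Y) : ‖a (dl x) y‖ ≤ ‖a‖ :=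
  (lp.norm_apply_le_norm (by simp) _ y).trans (by simpa [dl_norm] using a.le_opNorm (dl x))

lemma en_star (a : Op) (x y : Y) : (star a) (dl x) y = conj (a (dl y) x) := by
  rw [← inner_dl, ← inner_dl, ContinuousLinearMap.star_eq_adjoint,
    ContinuousLinearMap.adjoint_inner_right, inner_conj_symm]

noncomputable def en (x y : Y) : Op →L[ℂ] ℂ :=
  LinearMap.mkContinuous
    { toFun := fun a => a (dl x) y
      map_add' := fun _ _ => rfl
      map_smul' := fun _ _ => rfl } 1 fun a => by simpa using en_le a x y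

lemma en_apply (x y : Y) (a : Op) : en x y a = a (dl x) y := rfl

noncomputable def ind (S : Set Y) (y : Y) : ℂ := S.indicator 1 y

lemma ind_of {S : Set Y} {y : Y} (h : y ∈ S) : ind S y = 1 := Set.indicator_of_mem h _
lemma ind_not {S : Set Y} {y : Y} (h : y ∉ S) : ind S y = 0 := Set.indicator_of_notMem h _
lemma ind_le (S : Set Y) (y : Y) : ‖ind S y‖ ≤ 1 := by
  by_cases h : y ∈ S
  · simp [ind_of h]
  · simp [ind_not h]

lemma T_sum (S : Set Y) (h : GG) (f : L2) (t : Finset Y) :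
    ∑ x ∈ t, ‖ind S x * f (sh h x)‖ ^ (2 : ENNReal).toReal ≤ ‖f‖ ^ (2 : ENNReal).toReal := by
  refine le_trans ?_ (lp.sum_rpow_le_norm_rpow (by simp) f (t.map (sh h).toEmbedding))
  rw [Finset.sum_map]
  refine Finset.sum_le_sum fun x _ => Real.rpow_le_rpow (norm_nonneg _) ?_ (by simp)
  rw [norm_mul]
  exact mul_le_of_le_one_left (norm_nonneg _) (ind_le S x)

noncomputable def T (S : Set Y) (h : GG) : Op :=
  LinearMap.mkContinuous
    { toFun := fun f => ⟨fun x => ind S x * f (sh h x), memℓp_gen' (T_sum S h f)⟩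
      map_add' := fun f g => by
        ext x
        change ind S x * (f + g) (sh h x) = ind S x * f (sh h x) + ind S x * g (sh h x)
        simp [mul_add]
      map_smul' := fun a f => by
        ext x
        change ind S x * (a • f) (sh h x) = a • (ind S x * f (sh h x))
        simp [mul_left_comm] } 1 fun f => by
    rw [one_mul]
    exact lp.norm_le_of_forall_sum_le (by simp) (norm_nonneg _) (T_sum S h f)

lemma T_apply (S : Set Y) (h : GG) (f : L2) (x : Y) : T S h f x = ind S x * f (sh h x) := rfl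

lemma T_norm (S : Set Y) (h : GG) : ‖T S h‖ ≤ 1 := LinearMap.mkContinuous_norm_le _ zero_le_one _

lemma ind_inter (S S' : Set Y) (y : Y) : ind (S ∩ S') y = ind S y * ind S' y := by
  by_cases h : y ∈ S
  · by_cases h' : y ∈ S'
    · rw [ind_of h, ind_of h', ind_of (Set.mem_inter h h'), mul_one]
    · rw [ind_not h', ind_not (fun g => h' g.2), mul_zero]
  · rw [ind_not h, ind_not (fun g => h g.1), zero_mul]

lemma ind_pre (S : Set Y) (h : GG) (y : Y) : ind (sh h ⁻¹' S) y = ind S (sh h y) := rfl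

lemma T_mul (S S' : Set Y) (h h' : GG) : T S h * T S' h' = T (S ∩ sh h ⁻¹' S') (h + h') := by
  ext f x
  change ind S x * (ind S' (sh h x) * f (sh h' (sh h x))) = _
  rw [T_apply, ind_inter, ind_pre, mul_assoc]
  simp only [sh_apply, sub_sub]

lemma sh_iff (h : GG) (x y : Y) : sh h x = y ↔ x = sh (-h) y := by
  simp only [sh_apply, Prod.ext_iff, sub_neg_eq_add, sub_eq_iff_eq_add]

lemma T_dl (S : Set Y) (h : GG) (y : Y) : T S h (dl y) = ind S (sh (-h) y) • dl (sh (-h) y) := by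
  ext x
  rw [T_apply, lp.coeFn_smul, Pi.smul_apply, dl_apply, dl_apply, smul_eq_mul]
  by_cases e : x = sh (-h) y
  · rw [if_pos e, if_pos ((sh_iff _ _ _).2 e), e]
  · rw [if_neg e, if_neg (mt (sh_iff _ _ _).1 e)]; simp

lemma conj_ind (S : Set Y) (y : Y) : conj (ind S y) = ind S y := by
  by_cases h : y ∈ S
  · simp [ind_of h]
  · simp [ind_not h]

lemma T_star (S : Set Y) (h : GG) : star (T S h) = T (sh (-h) ⁻¹' S) (-h) := by
  refine ext_en fun x y => ?_
  rw [en_star, T_apply, T_apply, dl_apply, dl_apply, ind_pre, map_mul, conj_ind]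
  by_cases e : x = sh (-h) y
  · rw [if_pos e.symm, if_pos ((sh_iff _ _ _).2 e), e]; simp
  · rw [if_neg (Ne.symm e), if_neg (mt (sh_iff _ _ _).1 e)]; simp

lemma T_empty (h : GG) : T ∅ h = 0 := by
  ext f x
  rw [T_apply, ind_not (Set.notMem_empty x), zero_mul]; rfl

def Gen : Set Op := {a | ∃ n S h, Cyl n S ∧ Sup n h ∧ a = T S h}

theorem gen_mem {n : ℕ} {S : Set Y} (hS : Cyl n S) (h : GG) : T S h ∈ Gen := by
  obtain ⟨B, hB⟩ := ex_sup h
  exact ⟨max n B, S, h, hS.mono (le_max_left _ _), hB.mono (le_max_right _ _), rfl⟩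

noncomputable def A0 : NonUnitalStarSubalgebra ℂ Op where
  carrier := Submodule.span ℂ Gen
  add_mem' := add_mem
  zero_mem' := zero_mem _
  smul_mem' := fun c _ h => Submodule.smul_mem _ c h
  mul_mem' := by
    intro a b ha hb
    induction ha, hb using Submodule.span_induction₂ with
    | mem_mem a b ha hb =>
      obtain ⟨n, S, h, h1, h2, rfl⟩ := ha
      obtain ⟨n', S', h', h1', -, rfl⟩ := hb
      rw [T_mul]
      exact Submodule.subset_span (gen_mem ((h1.mono (le_max_left n n')).inter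
        ((h1'.mono (le_max_right n n')).shift (h2.mono (le_max_left n n')))) _)
    | zero_left => simp
    | zero_right => simp
    | add_left _ _ _ _ _ _ h1 h2 => rw [add_mul]; exact add_mem h1 h2
    | add_right _ _ _ _ _ _ h1 h2 => rw [mul_add]; exact add_mem h1 h2
    | smul_left c _ _ _ _ h => rw [smul_mul_assoc]; exact Submodule.smul_mem _ c h
    | smul_right c _ _ _ _ h => rw [mul_smul_comm]; exact Submodule.smul_mem _ c h
  star_mem' := by
    intro a ha
    induction ha using Submodule.span_induction with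
    | mem a ha =>
      obtain ⟨n, S, h, h1, h2, rfl⟩ := ha
      rw [T_star]
      exact Submodule.subset_span (gen_mem (h1.shift fun l hl => by simp [h2 l hl]) _)
    | zero => simp
    | add _ _ _ _ h1 h2 => rw [star_add]; exact add_mem h1 h2
    | smul c _ _ h => rw [star_smul]; exact Submodule.smul_mem _ _ h

noncomputable def AA : NonUnitalStarSubalgebra ℂ Op := A0.topologicalClosure

instance : IsClosed (AA : Set Op) := isClosed_closure

theorem mem_AA {a : Op} : a ∈ AA ↔ a ∈ closure (Submodule.span ℂ Gen : Set Op) := Iff.rfl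

theorem gen_AA {a : Op} (h : a ∈ Gen) : a ∈ AA := subset_closure (Submodule.subset_span h)

theorem AA_ind {W : Submodule ℂ Op} (hc : IsClosed (W : Set Op)) (hg : Gen ⊆ W) {a : Op}
    (ha : a ∈ AA) : a ∈ W :=
  closure_minimal (Submodule.span_le.2 hg) hc ha

def io (m : ℕ) (e : ∀ l : Fin m, ZMod (LL l)) : GG :=
  ⟨fun l => if h : l < m then e ⟨l, h⟩ else 0, m, fun l hl => dif_neg (by omega)⟩

theorem io_lt {m : ℕ} (e : ∀ l : Fin m, ZMod (LL l)) (l : Fin m) : (io m e).1 l = e l :=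
  dif_pos l.2

theorem io_sup (m : ℕ) (e : ∀ l : Fin m, ZMod (LL l)) : Sup m (io m e) :=
  fun l hl => dif_neg (by omega)

theorem io_add (m : ℕ) (e : ∀ l : Fin m, ZMod (LL l)) {h : GG} (hh : Sup m h) :
    io m (e + fun l : Fin m => h.1 l) = io m e + h := by
  refine Subtype.ext (funext fun l => ?_)
  by_cases hl : l < m
  · simp [io, hl]
  · simp [io, hl, hh l (by omega)]

instance : Countable GG := by
  refine (show Function.Surjective (fun p : Σ m, ∀ l : Fin m, ZMod (LL l) => io p.1 p.2) from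
    fun g => ?_).countable
  obtain ⟨m, hm⟩ := ex_sup g
  refine ⟨⟨m, fun l => g.1 l⟩, ?_⟩
  have := io_add m 0 hm
  rw [zero_add] at this
  refine this.trans (add_eq_right.2 (Subtype.ext (funext fun l => ?_)))
  simp [io]

theorem cyl_count (n : ℕ) : {S | Cyl n S}.Countable := by
  let φ : Y → Fin (n + 1) × (∀ l : Fin n, ZMod (LL l)) :=
    fun y => (⟨min (tp y n) n, by omega⟩, fun l => y.2.1 l)
  refine (Set.countable_range (fun R : Set (Fin (n + 1) × (∀ l : Fin n, ZMod (LL l))) =>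
    {y | tp y n ≤ n ∧ φ y ∈ R})).mono ?_
  intro S (hS : Cyl n S)
  refine ⟨φ '' S, ?_⟩
  ext y
  constructor
  · rintro ⟨h1, y', h2, h3⟩
    have a := hS.1 y' h2
    simp only [φ, Prod.mk.injEq, Fin.mk.injEq] at h3
    exact hS.2 y' y (by omega) (fun l hl => congrFun h3.2 ⟨l, hl⟩) h2
  · exact fun h => ⟨hS.1 y h, y, h, rfl⟩

theorem sep_AA : TopologicalSpace.SeparableSpace AA := by
  have : Gen.Countable := by
    refine (Set.countable_iUnion fun n => Set.countable_iUnion fun h : GG =>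
      (cyl_count n).image (fun S => T S h)).mono ?_
    rintro _ ⟨n, S, h, h1, -, rfl⟩
    exact Set.mem_iUnion.2 ⟨n, Set.mem_iUnion.2 ⟨h, S, h1, rfl⟩⟩
  exact this.isSeparable.span.closure.separableSpace

end Pool.Agent.H.MP_86e2e0_an
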