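import Pool.Agent.H.MP_86e2e0_an.B

namespace Pool.Agent.H.MP_86e2e0_an

open Filter Topology
open scoped ComplexConjugate

def cy (y : Y) (n : ℕ) : Set Y := {z | tp z n = tp y n ∧ ∀ l < n, z.2.1 l = y.2.1 l}

theorem cy_self (y : Y) (n : ℕ) : y ∈ cy y n := ⟨rfl, fun _ _ => rfl⟩

theorem cy_cyl {y : Y} {n : ℕ} (h : tp y n ≤ n) : Cyl n (cy y n) :=
  ⟨fun z hz => hz.1 ▸ h, fun z z' h1 h2 hz =>
    ⟨h1 ▸ hz.1, fun l hl => (h2 l hl).symm.trans (hz.2 l hl)⟩⟩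

theorem sh_zero (y : Y) : sh 0 y = y := by simp [sh_apply]

theorem pre_zero (S : Set Y) : sh 0 ⁻¹' S = S := by ext y; simp [sh_zero]

theorem compress {a : Op} (ha : a ∈ Submodule.span ℂ Gen) : ∃ n0, ∀ n, n0 ≤ n → ∀ y : Y,
    T (cy y n) 0 * a * T (cy y n) 0 = (a (dl y) y) • T (cy y n) 0 := by
  induction ha using Submodule.span_induction with
  | mem a ha =>
    obtain ⟨n0, S, h, h1, h2, rfl⟩ := ha
    refine ⟨n0, fun n hn y => ?_⟩
    have h3 := h1.mono hn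
    rw [T_mul, T_mul, pre_zero, zero_add, add_zero, T_apply, dl_apply]
    by_cases e : h = 0
    · subst e
      rw [pre_zero, sh_zero, if_pos rfl, mul_one]
      by_cases hy : y ∈ S
      · rw [ind_of hy, one_smul]
        congr 1
        ext z
        exact ⟨fun g => g.2, fun g => ⟨⟨g, h3.2 y z g.1.symm (fun l hl => (g.2 l hl).symm) hy⟩, g⟩⟩
      · rw [ind_not hy, zero_smul, ← T_empty 0]
        congr 1
        ext z
        exact ⟨fun g => hy (h3.2 z y g.2.1 g.2.2 g.1.2), fun g => g.elim⟩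
    · rw [if_neg (by simpa [sh_apply, Prod.ext_iff] using e), mul_zero, zero_smul, ← T_empty h]
      congr 1
      ext z
      refine ⟨fun g => e (Subtype.ext (funext fun l => ?_)), fun g => g.elim⟩
      by_cases hl : l < n
      · have a1 := g.1.1.2 l hl
        have a2 := g.2.2 l hl
        simp only [sh_apply, AddSubgroup.coe_sub, Pi.sub_apply, a1, sub_eq_self] at a2
        exact a2
      · exact h2 l (by omega)
  | zero => exact ⟨0, fun n _ y => by simp⟩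
  | add a b _ _ h1 h2 =>
    obtain ⟨n1, h1⟩ := h1
    obtain ⟨n2, h2⟩ := h2
    refine ⟨max n1 n2, fun n hn y => ?_⟩
    rw [mul_add, add_mul, h1 n (le_of_max_le_left hn), h2 n (le_of_max_le_right hn), ← add_smul]
    rfl
  | smul c a _ h1 =>
    obtain ⟨n1, h1⟩ := h1
    refine ⟨n1, fun n hn y => ?_⟩
    rw [mul_smul_comm, smul_mul_assoc, h1 n hn, smul_smul]
    rfl

theorem en_off {a : Op} (ha : a ∈ AA) {y y' : Y} (h : y.1 ≠ y'.1) : a (dl y') y = 0 := by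
  refine AA_ind (W := LinearMap.ker (en y' y).toLinearMap) (en y' y).isClosed_ker ?_ ha
  rintro _ ⟨n, S, g, -, -, rfl⟩
  show T S g (dl y') y = 0
  rw [T_apply, dl_apply, if_neg (fun e : sh g y = y' => h (by rw [← e]; rfl)), mul_zero]

def PP (n : ℕ) : Set Y := {y | tp y n ≤ n}

theorem PP_cyl (n : ℕ) : Cyl n (PP n) := ⟨fun _ h => h, fun y y' h1 _ h => by
  unfold PP at *; simp only [Set.mem_ofPred_eq] at *; omega⟩

/-- an abstract closed ideal of `AA`, seen inside the bounded operators -/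
structure Idl (J : Set Op) : Prop where
  sub : ∀ x ∈ J, x ∈ AA
  cl : IsClosed J
  zero : 0 ∈ J
  add : ∀ x ∈ J, ∀ y ∈ J, x + y ∈ J
  neg : ∀ x ∈ J, -x ∈ J
  left : ∀ a ∈ AA, ∀ x ∈ J, a * x ∈ J
  right : ∀ a ∈ AA, ∀ x ∈ J, x * a ∈ J

theorem Idl.proj {J : Set Op} (hJ : Idl J) {p z : Op} (hp : p ∈ AA) (hz : z ∈ J)
    (h0 : p * p = p) (h1 : z * p = z) (h2 : ‖p - z‖ < 1) : p ∈ J := by
  have hw : p - z ∈ AA := sub_mem hp (hJ.sub z hz)
  have key : ∀ k, (p - z) ^ (k + 1) ∈ AA ∧ (p - z) ^ (k + 1) * p = (p - z) ^ (k + 1) ∧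
      p - (p - z) ^ (k + 1) ∈ J := by
    intro k
    induction k with
    | zero => exact ⟨by simpa using hw, by simp [sub_mul, h0, h1], by simpa using hz⟩
    | succ k ih =>
      refine ⟨by rw [pow_succ]; exact mul_mem ih.1 hw,
        by rw [pow_succ, mul_assoc, sub_mul, h0, h1], ?_⟩
      have := hJ.add _ ih.2.2 _ (hJ.left _ ih.1 z hz)
      rw [pow_succ (p - z) (k + 1), mul_sub, ih.2.1]
      convert this using 1
      abel
  have t : Tendsto (fun k => p - (p - z) ^ (k + 1)) atTop (𝓝 (p - 0)) :=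
    tendsto_const_nhds.sub
      ((tendsto_pow_atTop_nhds_zero_of_norm_lt_one h2).comp (tendsto_add_atTop_nat 1))
  rw [sub_zero] at t
  exact hJ.cl.mem_of_tendsto t (Eventually.of_forall fun k => (key k).2.2)

theorem Idl.first {J : Set Op} (hJ : Idl J) {x : Op} (hx : x ∈ J) (h0 : x ≠ 0) :
    ∃ y n, tp y n ≤ n ∧ T (cy y n) 0 ∈ J := by
  obtain ⟨y', y, hy⟩ : ∃ y' y, x (dl y') y ≠ 0 := by
    by_contra hc
    push Not at hc
    exact h0 (ext_en fun a b => hc a b)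
  have e1 : y.1 = y'.1 := by
    by_contra hc
    exact hy (en_off (hJ.sub x hx) hc)
  obtain ⟨B, hB⟩ := ex_sup y'.2
  obtain ⟨C, hC⟩ := ex_sup y.2
  have e2 : sh (-(y'.2 - y.2)) y = y' := by simp [sh_apply, e1]
  have m1 : y' ∈ PP (max B y'.1) := by
    show tp y' _ ≤ _
    rw [tp_top (hB.mono (le_max_left _ _))]; exact le_max_right _ _
  obtain ⟨x1, hx1⟩ : ∃ x1, x1 = x * T (PP (max B y'.1)) (y'.2 - y.2) := ⟨_, rfl⟩
  have j1 : x1 ∈ J := hx1 ▸ hJ.right _ (gen_AA (gen_mem (PP_cyl _) _)) x hx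
  have c1 : x1 (dl y) y = x (dl y') y := by
    rw [hx1, ContinuousLinearMap.mul_apply, T_dl, e2, ind_of m1, one_smul]
  rw [← c1] at hy
  have cp : 0 < ‖x1 (dl y) y‖ := norm_pos_iff.2 hy
  obtain ⟨a, ha, hd⟩ := Metric.mem_closure_iff.1 (mem_AA.1 (hJ.sub x1 j1)) (‖x1 (dl y) y‖ / 3)
    (by positivity)
  rw [dist_eq_norm] at hd
  obtain ⟨n0, hn0⟩ := compress ha
  obtain ⟨n, hn⟩ : ∃ n, n = max n0 (max C y.1) := ⟨_, rfl⟩
  have t1 : tp y n ≤ n := by rw [tp_top (hC.mono (by omega))]; omega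
  have q := hn0 n (by omega) y
  obtain ⟨p, hp⟩ : ∃ p, p = T (cy y n) 0 := ⟨_, rfl⟩
  rw [← hp] at q
  have p1 : p ∈ AA := hp ▸ gen_AA (gen_mem (cy_cyl t1) _)
  have p2 : p * p = p := by rw [hp, T_mul, pre_zero, Set.inter_self, add_zero]
  have p3 : ‖p‖ ≤ 1 := hp ▸ T_norm _ _
  obtain ⟨lam, hl⟩ : ∃ lam, lam = a (dl y) y := ⟨_, rfl⟩
  rw [← hl] at q
  have l1 : ‖x1 (dl y) y - lam‖ ≤ ‖x1 - a‖ := hl ▸ en_le (x1 - a) y y
  have l2 : 2 * ‖x1 (dl y) y‖ / 3 ≤ ‖lam‖ := by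
    have := norm_sub_norm_le (x1 (dl y) y) lam
    linarith
  have l3 : 0 < ‖lam‖ := by linarith
  have l4 : lam ≠ 0 := norm_pos_iff.1 l3
  refine ⟨y, n, t1, hp ▸ hJ.proj p1 (z := (lam⁻¹ • p) * x1 * p)
    (hJ.right _ p1 _ (hJ.left _ (SMulMemClass.smul_mem _ p1) _ j1)) p2
    (by rw [mul_assoc, p2]) ?_⟩
  have e3 : p - (lam⁻¹ • p) * x1 * p = lam⁻¹ • (p * (a - x1) * p) := by
    rw [mul_sub, sub_mul, q, smul_sub, smul_smul, inv_mul_cancel₀ l4, one_smul, smul_mul_assoc,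
      smul_mul_assoc]
  rw [e3, norm_smul, norm_inv, inv_mul_lt_iff₀ l3]
  have n1 : ‖p * (a - x1) * p‖ ≤ ‖a - x1‖ := by
    refine (norm_mul_le _ _).trans ((mul_le_of_le_one_right (norm_nonneg _) p3).trans ?_)
    exact (norm_mul_le _ _).trans (mul_le_of_le_one_left (norm_nonneg _) p3)
  rw [norm_sub_rev] at n1
  linarith

theorem Idl.move {J : Set Op} (hJ : Idl J) {y y' : Y} {n : ℕ} (h : tp y n ≤ n)
    (e : tp y' n = tp y n) (hy : T (cy y n) 0 ∈ J) : T (cy y' n) 0 ∈ J := by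
  obtain ⟨g, g1, g2⟩ : ∃ g : GG, Sup n g ∧ ∀ l < n, g.1 l = y'.2.1 l - y.2.1 l :=
    ⟨io n (fun l => y'.2.1 l - y.2.1 l), io_sup _ _, fun l hl => io_lt _ ⟨l, hl⟩⟩
  have := hJ.right _ (gen_AA (gen_mem (cy_cyl h) (-g))) _
    (hJ.left _ (gen_AA (gen_mem (cy_cyl (e ▸ h : tp y' n ≤ n)) g)) _ hy)
  rw [T_mul, T_mul, add_zero, add_neg_cancel] at this
  convert this using 2
  ext z
  refine ⟨fun a => ?_, fun a => a.1.1⟩
  have b : sh g z ∈ cy y n := ⟨by rw [tp_sh g1, a.1, e], fun l hl => by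
    simp [sh_apply, g2 l hl, a.2 l hl]⟩
  exact ⟨⟨a, b⟩, b⟩

theorem val_nat {l i : ℕ} (hi : i ≤ l) : ((i + 1 : ℕ) : ZMod (LL l)).val = i + 1 := by
  refine ZMod.val_cast_of_lt ?_
  unfold LL
  have : 2 ≤ 2 ^ (l + 2) := by
    calc 2 = 2 ^ 1 := rfl
      _ ≤ _ := Nat.pow_le_pow_right (by norm_num) (by omega)
  nlinarith

theorem Idl.step {J : Set Op} (hJ : Idl J) {n i : ℕ} (hi : i ≤ n)
    (h : ∀ y, tp y n = i → T (cy y n) 0 ∈ J) (y : Y) (hy : tp y (n + 1) ≤ n + 1) :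
    T (cy y (n + 1)) 0 ∈ J := by
  obtain ⟨g, g1, g2⟩ : ∃ g : GG, Sup (n + 1) g ∧ g.1 n = y.2.1 n - ((i + 1 : ℕ) : ZMod (LL n)) :=
    ⟨io (n + 1) (fun l => y.2.1 l - ((i + 1 : ℕ) : ZMod (LL l))), io_sup _ _,
      io_lt (m := n + 1) _ ⟨n, by omega⟩⟩
  have a1 : tp (sh g y) (n + 1) = tp y (n + 1) := tp_sh g1 y
  have a2 : (sh g y).2.1 n = ((i + 1 : ℕ) : ZMod (LL n)) := by simp [sh_apply, g2]
  have a3 : tp (sh g y) n = i := by
    rw [tp_rec, a1, a2, val_nat hi, MP_86e2e0_an.sub, if_pos (by omega)]; rfl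
  refine hJ.move (a1 ▸ hy) a1.symm ?_
  have := hJ.left _ (gen_AA (gen_mem (cy_cyl (a1 ▸ hy : tp (sh g y) (n + 1) ≤ n + 1)) 0)) _
    (h _ a3)
  rw [T_mul, pre_zero, add_zero] at this
  convert this using 2
  refine (Set.inter_eq_left.2 ?_).symm
  exact fun z hz => ((cy_cyl (a3 ▸ hi : tp (sh g y) n ≤ n)).mono (Nat.le_succ n)).2 _ z hz.1.symm
    (fun l hl => (hz.2 l hl).symm) (cy_self _ _)

theorem T_union {S S' : Set Y} (h : Disjoint S S') : T (S ∪ S') 0 = T S 0 + T S' 0 := by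
  ext f x
  change ind (S ∪ S') x * f (sh 0 x) = ind S x * f (sh 0 x) + ind S' x * f (sh 0 x)
  rw [← add_mul]
  congr 1
  exact congrFun (Set.indicator_union_of_disjoint h 1) x

theorem Idl.all_cyl {J : Set Op} (hJ : Idl J) {n : ℕ} (h : ∀ y, tp y n ≤ n → T (cy y n) 0 ∈ J)
    {S : Set Y} (hS : Cyl n S) : T S 0 ∈ J := by
  classical
  let φ : Y → Fin (n + 1) × (∀ l : Fin n, ZMod (LL l)) :=
    fun y => (⟨min (tp y n) n, by omega⟩, fun l => y.2.1 l)
  have key : ∀ R : Finset (Fin (n + 1) × (∀ l : Fin n, ZMod (LL l))),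
      T (S ∩ {y | φ y ∈ R}) 0 ∈ J := by
    intro R
    induction R using Finset.induction_on with
    | empty => simpa [T_empty] using hJ.zero
    | insert r R hr ih =>
      have e : S ∩ {y | φ y ∈ insert r R} = (S ∩ {y | φ y = r}) ∪ (S ∩ {y | φ y ∈ R}) := by
        ext y; simp [and_or_left]
      have dj : Disjoint (S ∩ {y | φ y = r}) (S ∩ {y | φ y ∈ R}) := by
        rw [Set.disjoint_left]
        rintro y ⟨-, a⟩ ⟨-, b⟩
        have a' : φ y = r := a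
        have b' : φ y ∈ R := b
        exact hr (a' ▸ b')
      rw [e, T_union dj]
      refine hJ.add _ ?_ _ ih
      rcases (S ∩ {y | φ y = r}).eq_empty_or_nonempty with e0 | ⟨y, y1, y2⟩
      · rw [e0, T_empty]; exact hJ.zero
      · convert h y (hS.1 y y1) using 2
        ext z
        have b := hS.1 y y1
        have y3 : φ y = r := y2
        constructor
        · rintro ⟨z1, z2⟩
          have a := hS.1 z z1
          have z3 : φ z = φ y := z2.trans y3.symm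
          simp only [φ, Prod.mk.injEq, Fin.mk.injEq] at z3
          exact ⟨by omega, fun l hl => congrFun z3.2 ⟨l, hl⟩⟩
        · intro hz
          refine ⟨hS.2 y z hz.1.symm (fun l hl => (hz.2 l hl).symm) y1, ?_⟩
          show φ z = r
          rw [← y3]
          simp only [φ, Prod.mk.injEq, Fin.mk.injEq, hz.1, true_and]
          exact funext fun l => hz.2 l l.2
  simpa using key Finset.univ

theorem Idl.top {J : Set Op} (hJ : Idl J) {x : Op} (hx : x ∈ J) (h0 : x ≠ 0) {a : Op}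
    (ha : a ∈ AA) : a ∈ J := by
  obtain ⟨y0, n0, t0, j0⟩ := hJ.first hx h0
  have lev : ∀ n, n0 + 1 ≤ n → ∀ y, tp y n ≤ n → T (cy y n) 0 ∈ J := by
    intro n hn
    induction hn with
    | refl => exact hJ.step t0 fun y hy => hJ.move t0 hy j0
    | step _ ih => exact hJ.step (Nat.zero_le _) fun y hy => ih y (by omega)
  have sp : ∀ a ∈ Submodule.span ℂ Gen, ∀ c : ℂ, c • a ∈ J := by
    intro a ha
    induction ha using Submodule.span_induction with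
    | mem a ha =>
      obtain ⟨n, S, h, h1, -, rfl⟩ := ha
      intro c
      have := hJ.right _ (SMulMemClass.smul_mem c (gen_AA (gen_mem h1 h))) _
        (hJ.all_cyl (lev _ (le_max_right n _)) (h1.mono (le_max_left _ _)))
      rwa [mul_smul_comm, T_mul, pre_zero, Set.inter_self, zero_add] at this
    | zero => intro c; simpa using hJ.zero
    | add a b _ _ h1 h2 => intro c; rw [smul_add]; exact hJ.add _ (h1 c) _ (h2 c)
    | smul c' a _ h1 => intro c; rw [smul_smul]; exact h1 _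
  exact closure_minimal (fun b hb => by simpa using sp b hb 1) hJ.cl (mem_AA.1 ha)

theorem simple_AA (J : TwoSidedIdeal AA) (hc : IsClosed (J : Set AA)) : J = ⊥ ∨ J = ⊤ := by
  by_cases h : ∀ x ∈ J, x = 0
  · exact Or.inl (eq_bot_iff.2 fun x hx => (TwoSidedIdeal.mem_bot _).2 (h x hx))
  push Not at h
  obtain ⟨x, hx, x0⟩ := h
  have hJ : Idl (Subtype.val '' (J : Set AA)) := by
    refine ⟨?_, (IsClosed.isClosedEmbedding_subtypeVal inferInstance).isClosedMap _ hc,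
      ⟨0, J.zero_mem, rfl⟩, ?_, ?_, ?_, ?_⟩
    · rintro _ ⟨x, -, rfl⟩; exact x.2
    · rintro _ ⟨x, hx, rfl⟩ _ ⟨y, hy, rfl⟩; exact ⟨x + y, J.add_mem hx hy, rfl⟩
    · rintro _ ⟨x, hx, rfl⟩; exact ⟨-x, J.neg_mem hx, rfl⟩
    · rintro a ha _ ⟨x, hx, rfl⟩; exact ⟨⟨a, ha⟩ * x, J.mul_mem_left _ _ hx, rfl⟩
    · rintro a ha _ ⟨x, hx, rfl⟩; exact ⟨x * ⟨a, ha⟩, J.mul_mem_right _ _ hx, rfl⟩
  refine Or.inr (eq_top_iff.2 fun a _ => ?_)
  obtain ⟨b, hb, e⟩ := hJ.top ⟨x, hx, rfl⟩ (fun e => x0 (Subtype.ext e)) a.2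
  exact Subtype.ext e ▸ hb

end Pool.Agent.H.MP_86e2e0_an
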