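import Pool.Agent.H.MP_86e2e0_an.C

namespace Pool.Agent.H.MP_86e2e0_an

open Filter Topology
open scoped ComplexConjugate

abbrev Dg (m : ℕ) : Type := ∀ l : Fin m, ZMod (LL l)

noncomputable def cd (m : ℕ) : ℝ := Fintype.card (Dg m)

theorem cd_pos (m : ℕ) : 0 < cd m := by unfold cd; exact_mod_cast Fintype.card_pos

noncomputable def av (k m : ℕ) : Op →L[ℂ] ℂ :=
  (((cd m)⁻¹ : ℝ) : ℂ) • ∑ e : Dg m, en (k, io m e) (k, io m e)

theorem av_apply (k m : ℕ) (a : Op) :
    av k m a = (((cd m)⁻¹ : ℝ) : ℂ) * ∑ e : Dg m, a (dl (k, io m e)) (k, io m e) := by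
  simp [av, en_apply]

theorem av_le (k m : ℕ) (a : Op) (f : Dg m → ℝ)
    (h : ∀ e, ‖a (dl (k, io m e)) (k, io m e)‖ ≤ f e) : ‖av k m a‖ ≤ (cd m)⁻¹ * ∑ e, f e := by
  rw [av_apply, norm_mul, Complex.norm_real, Real.norm_of_nonneg (inv_pos.2 (cd_pos m)).le]
  exact mul_le_mul_of_nonneg_left ((norm_sum_le _ _).trans (Finset.sum_le_sum fun e _ => h e))
    (inv_pos.2 (cd_pos m)).le

theorem av_const (m : ℕ) (c : ℝ) : (cd m)⁻¹ * ∑ _e : Dg m, c = c := by
  rw [Finset.sum_const, Finset.card_univ, nsmul_eq_mul, ← cd, inv_mul_cancel_left₀ (cd_pos m).ne']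

theorem av_bd (k m : ℕ) (a : Op) : ‖av k m a‖ ≤ ‖a‖ :=
  (av_le k m a (fun _ => ‖a‖) fun _ => en_le _ _ _).trans (av_const m _).le

theorem av_re (k m : ℕ) (a : Op) :
    (av k m a).re = (cd m)⁻¹ * ∑ e : Dg m, (a (dl (k, io m e)) (k, io m e)).re := by
  rw [av_apply, Complex.re_ofReal_mul, Complex.re_sum]

theorem av_pos (k m : ℕ) (a : Op) : 0 ≤ (av k m (star a * a)).re := by
  rw [av_re]
  refine mul_nonneg (inv_pos.2 (cd_pos m)).le (Finset.sum_nonneg fun e _ => ?_)
  rw [← inner_dl, ContinuousLinearMap.mul_apply, ContinuousLinearMap.star_eq_adjoint,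
    ContinuousLinearMap.adjoint_inner_right]
  exact inner_self_nonneg (𝕜 := ℂ)

theorem av_tr (k : ℕ) {m : ℕ} (S : Set Y) {h : GG} (hh : Sup m h) (b : Op) :
    av k m (T S h * b) = av k m (b * T S h) := by
  rw [av_apply, av_apply]
  congr 1
  rw [← Equiv.sum_comp (Equiv.addRight (fun l : Fin m => h.1 l))]
  refine Finset.sum_congr rfl fun e _ => ?_
  rw [Equiv.coe_addRight, io_add m e hh, ContinuousLinearMap.mul_apply,
    ContinuousLinearMap.mul_apply, T_apply, T_dl, map_smul]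
  simp [sh_apply]

theorem ex_lim (k : ℕ) (a : Op) : ∃ c, Tendsto (fun m => av k m a) (hyperfilter ℕ) (𝓝 c) := by
  obtain ⟨c, -, hc⟩ := (isCompact_closedBall (0 : ℂ) ‖a‖).ultrafilter_le_nhds
    ((hyperfilter ℕ).map fun m => av k m a) (by
      rw [Ultrafilter.coe_map, le_principal_iff, mem_map]
      exact Eventually.of_forall fun m => by simpa using av_bd k m a)
  exact ⟨c, hc⟩

noncomputable def t0 (k : ℕ) : Op →L[ℂ] ℂ :=
  LinearMap.mkContinuous
    { toFun := fun a => (ex_lim k a).choose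
      map_add' := fun a b => tendsto_nhds_unique (ex_lim k (a + b)).choose_spec (by
        simpa using (ex_lim k a).choose_spec.add (ex_lim k b).choose_spec)
      map_smul' := fun c a => tendsto_nhds_unique (ex_lim k (c • a)).choose_spec (by
        simpa using (ex_lim k a).choose_spec.const_mul c) } 1 fun a => by
    rw [one_mul]
    exact le_of_tendsto' (ex_lim k a).choose_spec.norm fun m => av_bd k m a

theorem t0_lim (k : ℕ) (a : Op) : Tendsto (fun m => av k m a) (hyperfilter ℕ) (𝓝 (t0 k a)) :=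
  (ex_lim k a).choose_spec

theorem t0_bd (k : ℕ) (a : Op) : ‖t0 k a‖ ≤ ‖a‖ :=
  le_of_tendsto' (t0_lim k a).norm fun m => av_bd k m a

theorem ev_ge (B : ℕ) : ∀ᶠ m in (hyperfilter ℕ : Filter ℕ), B ≤ m :=
  Nat.hyperfilter_le_atTop (eventually_ge_atTop B)

theorem t0_tr (k : ℕ) {a : Op} (ha : a ∈ AA) (b : Op) : t0 k (a * b) = t0 k (b * a) := by
  let F : Op →L[ℂ] ℂ := (t0 k).comp ((ContinuousLinearMap.mul ℂ Op).flip b) -
    (t0 k).comp (ContinuousLinearMap.mul ℂ Op b)
  have : a ∈ LinearMap.ker F.toLinearMap := by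
    refine AA_ind F.isClosed_ker ?_ ha
    rintro _ ⟨n, S, h, -, h2, rfl⟩
    show t0 k (T S h * b) - t0 k (b * T S h) = 0
    rw [sub_eq_zero]
    refine tendsto_nhds_unique (t0_lim k _) ((t0_lim k _).congr' ?_)
    filter_upwards [ev_ge n] with m hm using (av_tr k S (h2.mono hm) b).symm
  exact sub_eq_zero.1 this

def spc (l s : ℕ) : Prop := 1 ≤ s ∧ s ≤ l + 1

instance (l s : ℕ) : Decidable (spc l s) := inferInstanceAs (Decidable (1 ≤ s ∧ s ≤ l + 1))

theorem cnt {m : ℕ} (l : Fin m) :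
    (cd m)⁻¹ * ∑ e : Dg m, (if spc l (e l).val then (1 : ℝ) else 0) ≤ 1 / 2 ^ (l.val + 2) := by
  classical
  have h1 : ∀ f : ZMod (LL l) → ℝ, ∑ e : Dg m, f (e l) =
      (∑ s, f s) * Fintype.card (∀ j : {j : Fin m // j ≠ l}, ZMod (LL j.val)) := by
    intro f
    rw [← (Equiv.piSplitAt l (fun j : Fin m => ZMod (LL j))).symm.sum_comp, Fintype.sum_prod_type,
      Finset.sum_mul]
    refine Finset.sum_congr rfl fun s _ => ?_
    simp [Equiv.piSplitAt, mul_comm]
  have h2 := h1 fun _ => 1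
  have h3 := h1 fun s => if spc l s.val then 1 else 0
  simp only [Finset.sum_const, Finset.card_univ, ZMod.card, nsmul_eq_mul, mul_one] at h2
  have h4 : ∑ s : ZMod (LL l), (if spc l s.val then (1 : ℝ) else 0) ≤ l.val + 1 := by
    rw [Finset.sum_boole]
    have : (Finset.univ.filter fun s : ZMod (LL l) => spc l s.val).card ≤
        (Finset.Icc 1 (l.val + 1)).card :=
      Finset.card_le_card_of_injOn ZMod.val (fun s hs => by
        simpa [spc] using hs) (ZMod.val_injective _).injOn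
    simp only [Nat.card_Icc] at this
    exact_mod_cast this
  rw [h3, inv_mul_le_iff₀ (cd_pos m), cd, h2]
  have : (LL l : ℝ) = (l.val + 1) * 2 ^ (l.val + 2) := by simp [LL]
  rw [this, mul_right_comm, mul_assoc ((l.val : ℝ) + 1), mul_one_div_cancel (by positivity),
    mul_one]
  gcongr

theorem stay {y : Y} {m a : ℕ} (h : Sup m y.2)
    (h1 : ∀ l, a ≤ l → l < m → ¬ spc l (y.2.1 l).val) : tp y a = y.1 := by
  by_cases ha : m ≤ a
  · exact tp_top (h.mono ha)
  · have key : ∀ j, j ≤ m - a → tp y (m - j) = y.1 := by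
      intro j
      induction j with
      | zero => exact fun _ => tp_top h
      | succ j ih =>
        intro hj
        rw [tp_rec, show m - (j + 1) + 1 = m - j by omega, ih (by omega), sub,
          if_neg fun g => h1 _ (by omega) (by omega) g.2]
    have := key (m - a) le_rfl
    rwa [show m - (m - a) = a by omega] at this

theorem below {y : Y} {a n : ℕ} (h : a < tp y a) (hn : n ≤ a) : n < tp y n := by
  by_contra hc
  have := ((PP_cyl n).mono hn).1 y (not_lt.1 hc)
  omega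

open Classical in
theorem frac (k m a : ℕ) :
    (cd m)⁻¹ * ∑ e : Dg m, (if tp (k, io m e) a = k then (0 : ℝ) else 1) ≤ 1 / 2 ^ (a + 1) := by
  have h1 : ∀ e : Dg m, (if tp (k, io m e) a = k then (0 : ℝ) else 1) ≤
      ∑ l : Fin m, if a ≤ l.val then (if spc l (e l).val then 1 else 0) else 0 := by
    intro e
    have p : ∀ l : Fin m, (0 : ℝ) ≤ if a ≤ l.val then (if spc l (e l).val then 1 else 0) else 0 :=
      fun l => by split_ifs <;> norm_num
    split_ifs with h
    · exact Finset.sum_nonneg fun l _ => p l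
    · obtain ⟨l, l1, l2, l3⟩ : ∃ l, a ≤ l ∧ l < m ∧ spc l ((io m e).1 l).val := by
        by_contra hc
        push Not at hc
        exact h (stay (y := (k, io m e)) (io_sup m e) hc)
      have := Finset.single_le_sum (fun l _ => p l) (Finset.mem_univ (⟨l, l2⟩ : Fin m))
      rw [io_lt e ⟨l, l2⟩] at l3
      rwa [if_pos l1, if_pos l3] at this
  refine (mul_le_mul_of_nonneg_left (Finset.sum_le_sum fun e _ => h1 e)
    (inv_pos.2 (cd_pos m)).le).trans ?_
  rw [Finset.sum_comm, Finset.mul_sum]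
  have h2 : ∀ l : Fin m, (cd m)⁻¹ * ∑ e : Dg m,
      (if a ≤ l.val then (if spc l (e l).val then (1 : ℝ) else 0) else 0) ≤
        if a ≤ l.val then 1 / 2 ^ (l.val + 2) else 0 := by
    intro l
    split_ifs
    · exact cnt l
    · simp
  refine (Finset.sum_le_sum fun l _ => h2 l).trans ?_
  rw [Fin.sum_univ_eq_sum_range (fun l => if a ≤ l then (1 : ℝ) / 2 ^ (l + 2) else 0)]
  have h3 : ∀ M, ∑ l ∈ Finset.range M, (if a ≤ l then (1 : ℝ) / 2 ^ (l + 2) else 0) ≤
      1 / 2 ^ (a + 1) - 1 / 2 ^ (max a M + 1) := by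
    intro M
    induction M with
    | zero => simp
    | succ M ih =>
      rw [Finset.sum_range_succ]
      split_ifs with h
      · rw [max_eq_right h] at ih
        rw [max_eq_right (by omega)]
        have : (1 : ℝ) / 2 ^ (M + 1) = 2 * (1 / 2 ^ (M + 2)) := by rw [pow_succ _ (M + 1)]; field_simp
        linarith
      · rw [max_eq_left (by omega)] at ih ⊢
        linarith
  have := h3 m
  have p : (0 : ℝ) ≤ 1 / 2 ^ (max a m + 1) := by positivity
  linarith

theorem t0_gen {n k : ℕ} {S : Set Y} (hS : Cyl n S) (h : GG) (hk : n ≤ k) :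
    ‖t0 (k + 1) (T S h)‖ ≤ 1 / 2 ^ (k + 1) := by
  classical
  refine le_of_tendsto' (t0_lim _ _).norm fun m => (av_le _ _ _ _ fun e => ?_).trans
    (frac (k + 1) m k)
  rw [T_apply, norm_mul]
  split_ifs with g
  · rw [ind_not fun q => absurd (hS.1 _ q) (not_le.2 (below (a := k) (by omega) hk))]; simp
  · exact mul_le_one₀ (ind_le _ _) (norm_nonneg _)
      ((lp.norm_apply_le_norm (by simp) _ _).trans (dl_norm _).le)

theorem t0_zero {a : Op} (ha : a ∈ AA) : Tendsto (fun k => t0 k a) atTop (𝓝 0) := by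
  have sp : ∀ a ∈ Submodule.span ℂ Gen, Tendsto (fun k => t0 k a) atTop (𝓝 0) := by
    intro a ha
    induction ha using Submodule.span_induction with
    | mem a ha =>
      obtain ⟨n, S, h, h1, -, rfl⟩ := ha
      rw [← tendsto_add_atTop_iff_nat 1]
      refine squeeze_zero_norm' ((eventually_ge_atTop n).mono fun k hk => t0_gen h1 h hk) ?_
      exact tendsto_const_nhds.div_atTop
        ((tendsto_pow_atTop_atTop_of_one_lt (by norm_num)).comp (tendsto_add_atTop_nat 1))
    | zero => simp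
    | add a b _ _ h1 h2 => simpa using h1.add h2
    | smul c a _ h1 => simpa using h1.const_mul c
  rw [Metric.tendsto_nhds]
  intro ε hε
  obtain ⟨b, hb, hd⟩ := Metric.mem_closure_iff.1 (mem_AA.1 ha) (ε / 2) (by positivity)
  filter_upwards [Metric.tendsto_nhds.1 (sp b hb) (ε / 2) (by positivity)] with k hk
  rw [dist_zero_right] at hk ⊢
  rw [dist_eq_norm] at hd
  have h1 := t0_bd k (a - b)
  rw [map_sub] at h1
  have := norm_sub_norm_le (t0 k a) (t0 k b)
  linarith

theorem t0_big (k : ℕ) : 1 / 2 ≤ (t0 k (T (PP k) 0)).re := by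
  classical
  refine ge_of_tendsto' ((Complex.continuous_re.tendsto _).comp (t0_lim k _)) fun m => ?_
  show _ ≤ (av k m _).re
  rw [av_re]
  have h1 : ∀ e : Dg m, 1 - (if tp (k, io m e) k = k then (0 : ℝ) else 1) ≤
      (T (PP k) 0 (dl (k, io m e)) (k, io m e)).re := by
    intro e
    rw [T_apply, sh_zero, dl_apply, if_pos rfl, mul_one]
    by_cases g : (k, io m e) ∈ PP k
    · rw [ind_of g]; split_ifs <;> norm_num
    · rw [ind_not g, if_neg fun q => g (le_of_eq q)]; norm_num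
  refine le_trans ?_ (mul_le_mul_of_nonneg_left (Finset.sum_le_sum fun e _ => h1 e)
    (inv_pos.2 (cd_pos m)).le)
  rw [Finset.sum_sub_distrib, mul_sub, av_const]
  have := frac k m k
  have p : (1 : ℝ) / 2 ^ (k + 1) ≤ 1 / 2 := by
    rw [pow_succ]
    exact one_div_le_one_div_of_le (by norm_num)
      (le_mul_of_one_le_left (by norm_num) (one_le_pow₀ (by norm_num)))
  linarith

noncomputable def tau (k : ℕ) : AA →L[ℂ] ℂ where
  toFun a := t0 k a
  map_add' a b := map_add (t0 k) _ _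
  map_smul' c a := map_smul (t0 k) _ _
  cont := (t0 k).continuous.comp continuous_subtype_val

theorem tau_tr (k : ℕ) : Tr (tau k) where
  pos a := ge_of_tendsto' ((Complex.continuous_re.tendsto _).comp (t0_lim k _))
    fun m => av_pos k m a
  tr a b := t0_tr k a.2 b
  bd a := t0_bd k a

theorem tau_big (k : ℕ) : ∃ a : AA, ‖a‖ ≤ 1 ∧ 1 / 2 ≤ NN (tau k) a := by
  refine ⟨⟨T (PP k) 0, gen_AA (gen_mem (PP_cyl k) 0)⟩, T_norm _ _, ?_⟩
  show _ ≤ (t0 k (star (T (PP k) 0) * T (PP k) 0)).re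
  rw [T_star, neg_zero, T_mul, pre_zero, Set.inter_self, add_zero]
  exact t0_big k

end Pool.Agent.H.MP_86e2e0_an
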