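import Mathlib

namespace Pool.Agent.H.MP_86e2e0_an

open Filter Topology

variable {A : Type} [NonUnitalCStarAlgebra A] [PartialOrder A]

/-- `e k`, read as `0` for negative `k` -/
def ez (e : ℕ → A) (k : ℤ) : A := if k < 0 then 0 else e k.toNat

/-- good approximate identity -/
def Good (e : ℕ → A) : Prop :=
  (∀ n, 0 ≤ e n ∧ ‖e n‖ ≤ 1) ∧
  (∀ a, Tendsto (fun n => e n * a) atTop (𝓝 a) ∧ Tendsto (fun n => a * e n) atTop (𝓝 a)) ∧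
  (∀ n, e (n + 1) * e n = e n ∧ ‖e (n + 1) - e n‖ = 1) ∧
  ∃ h : ℕ → ℕ → A,
    (∀ p q : ℕ, p ≤ q → 0 ≤ h p q ∧ ‖h p q‖ ≤ 1 ∧ h p q ≤ ez e (q + 1) - ez e (p - 2) ∧
      h p q * (ez e q - ez e (p - 1)) = ez e q - ez e (p - 1)) ∧
    ∀ p q p' q' : ℕ, p ≤ q → p' ≤ q' → q + 1 < p' → h p q * h p' q' = 0

/-- sum over `n < N`, `n ∈ L` of `g` of the interval `[m n, m (n+1) - 1]` -/
noncomputable def ps (e : ℕ → A) (m : ℕ → ℕ) (L : Set ℕ) (N : ℕ) : A :=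
  ∑ n ∈ Finset.range N, L.indicator (fun n => ez e (m (n + 1) - 1) - ez e (m n - 1)) n

/-- nonmeagre ideal of the multiplier algebra -/
def NonMeagre (I : TwoSidedIdeal (DoubleCentralizer ℂ A)) : Prop :=
  (∀ a : A, (a : DoubleCentralizer ℂ A) ∈ I) ∧
  ∀ e : ℕ → A, Good e → ∀ m : ℕ → ℕ, StrictMono m → m 0 = 0 →
    ∃ L : Set ℕ, L.Infinite ∧ ∃ S ∈ I, ∀ a : A,
      Tendsto (fun N => ps e m L N * a) atTop (𝓝 (S.fst a)) ∧
      Tendsto (fun N => a * ps e m L N) atTop (𝓝 (S.snd a))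

end Pool.Agent.H.MP_86e2e0_an
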